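import Pool.Agent.N540.SA.App
import Pool.Agent.N44.NS.Main
import Pool.Agent.N69.NS.LEVEL

/-!
# A criterion for actions which are not sofic
-/

set_option autoImplicit false

namespace Pool.Agent.N540.SA

open Finset
open Pool.Agent.N303.KS hiding cn
open Pool.Agent.N44.NS (mono_count exists_gen X0 X0_some X0_nonneg X0_zero S_LEVEL)
open Pool.Agent.W661.RC (HasT)

noncomputable section

/-- an almost invariant function is almost constant on the pieces -/
theorem maj_piece {V : Type} [Fintype V] {k : ℕ} {ρ : FreeGroup (Fin k) →* Equiv.Perm V}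
    {Z : V → Prop} {κ τ τ₁ : ℝ} {L : V → Option V} (hS : Sys ρ Z κ τ τ₁ L)
    (hκ1 : κ ≤ 1 / 100) (hnum : τ₁ * (1 + k) ≤ τ) {O : Type} (p : V → O)
    (hp : ∀ s x, ¬ Z x → p (ρ (FreeGroup.of s) x) = p x) {i : V} (hi : 0 < sz L i) :
    ∃ c : O, (1 - κ) * sz L i ≤ ct fun x => L x = some i ∧ p x = c := by
  classical
  letI : Fintype (Set.range p) := Fintype.ofFinite _
  have hsum : ∀ J : Finset (Set.range p), (∑ j ∈ J, ct fun x => L x = some i ∧ p x = j.1) =
      ct fun x => L x = some i ∧ ∃ j ∈ J, p x = j.1 := by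
    intro J
    rw [ct_fiber (fun x => L x = some i ∧ ∃ j ∈ J, p x = j.1)
      (fun x => (⟨p x, x, rfl⟩ : Set.range p)), ← sum_subset (subset_univ J)]
    · refine sum_congr rfl fun j hj => ct_congr fun x => ?_
      constructor
      · rintro ⟨h1, h2⟩
        exact ⟨⟨h1, j, hj, h2⟩, Subtype.ext h2⟩
      · rintro ⟨⟨h1, -⟩, h2⟩
        exact ⟨h1, congrArg Subtype.val h2⟩
    · intro j _ hj
      apply ct_false
      rintro x ⟨⟨-, j', hj', h⟩, h'⟩
      have h2 : j' = j := Subtype.ext (by rw [← h, ← h'])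
      exact hj (h2 ▸ hj')
  obtain ⟨c, hc⟩ := majority (I := Set.range p) hκ1 hi
    (v := fun j => ct fun x => L x = some i ∧ p x = j.1) (fun J => by
      rw [hsum J]
      refine hS.irr i _ (fun x hx => hx.1) ?_
      have h1 : bd ρ (fun x => L x = some i ∧ ∃ j ∈ J, p x = j.1) ≤
          bd ρ (fun x => L x = some i) + ∑ s : Fin k, ct fun x => L x = some i ∧ Z x := by
        unfold bd
        rw [← sum_add_distrib]
        refine sum_le_sum fun s _ => ct_le_add ?_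
        rintro x ⟨⟨h1, j, hj, h2⟩, h3⟩
        by_cases hz : Z x
        · exact Or.inr ⟨h1, hz⟩
        · left
          refine ⟨h1, fun h4 => h3 ⟨h4, j, hj, ?_⟩⟩
          rw [hp s x hz, h2]
      rw [sum_const, card_univ, Fintype.card_fin, nsmul_eq_mul] at h1
      have h2 := hS.bdy i
      have h3 : (k : ℝ) * (ct fun x => L x = some i ∧ Z x) ≤ k * (τ₁ * sz L i) :=
        mul_le_mul_of_nonneg_left (hS.err i) (Nat.cast_nonneg _)
      have h4 := mul_le_mul_of_nonneg_right hnum hi.le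
      nlinarith) (by
      have h1 := hsum univ
      have h2 : (ct fun x => L x = some i ∧ ∃ j ∈ (univ : Finset (Set.range p)), p x = j.1) =
          sz L i := ct_congr fun x => by
        constructor
        · rintro ⟨h, -⟩
          exact h
        · intro h
          exact ⟨h, ⟨p x, x, rfl⟩, mem_univ _, rfl⟩
      rw [h1, h2]
      linarith)
  exact ⟨c.1, hc⟩

/-- the final count on one piece -/
theorem piece_contra {V : Type} [Fintype V] {k : ℕ} {ρ : FreeGroup (Fin k) →* Equiv.Perm V}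
    {Z : V → Prop} {κ τ τ₁ Λ : ℝ} {L : V → Option V} (hS : Sys ρ Z κ τ τ₁ L)
    (hn : Num k κ τ τ₁ Λ) {O : Type} (p : V → O)
    (hp : ∀ s x, ¬ Z x → p (ρ (FreeGroup.of s) x) = p x) {i j : V} (β : Equiv.Perm V)
    (u : FreeGroup (Fin k)) (hu : ∀ q : V → Prop, (ct fun x => q x ∧ ¬ q (ρ u x)) ≤ Λ * bd ρ q)
    (hi : 0 < sz L i) (hov : (1 - κ) * sz L i ≤ ov L β i j) (hsz : sz L j ≤ 11 / 10 * sz L i)
    (hne : ∀ x, ¬ Z x → p (β⁻¹ (ρ u (β x))) ≠ p x) : False := by
  classical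
  have hκ0 := hn.κ0
  have hκ1 := hn.κ1
  have hτ₁ := hn.τ₁0
  have hΛ := hn.Λ1
  have h4' := hn.a4
  have hnum : τ₁ * (1 + k) ≤ τ := by
    have h1 := hn.num
    have h2 : (0 : ℝ) ≤ k := Nat.cast_nonneg _
    have h3 : τ₁ * ((k + 2) * (1 + 1)) ≤ τ₁ * ((k + 2) * (1 + Λ)) :=
      mul_le_mul_of_nonneg_left (mul_le_mul_of_nonneg_left (by linarith) (by linarith)) hτ₁
    have h5 : κ * τ ≤ 1 * τ := mul_le_mul_of_nonneg_right (by linarith) hn.τ0.le
    nlinarith
  obtain ⟨c, hc⟩ := maj_piece hS hκ1 hnum p hp hi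
  have hszi := hi.le
  have A1 : (ct fun x => L x = some i ∧ ¬ L (β x) = some j) ≤ κ * sz L i := by
    have h1 := ct_split (fun x => L x = some i) (fun x => L (β x) = some j)
    unfold ov at hov
    unfold sz at *
    linarith
  have A2 : (ct fun x => L x = some i ∧ ¬ p x = c) ≤ κ * sz L i := by
    have h1 := ct_split (fun x => L x = some i) (fun x => p x = c)
    unfold sz at *
    linarith
  have A3 := hS.err i
  have A4 : (ct fun x => L (β x) = some j ∧ ¬ L (ρ u (β x)) = some j) ≤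
      Λ * (τ₁ * (11 / 10 * sz L i)) := by
    rw [ct_perm (fun z => L z = some j ∧ ¬ L (ρ u z) = some j) β]
    refine (hu fun z => L z = some j).trans (mul_le_mul_of_nonneg_left ?_ (by linarith))
    exact (hS.bdy j).trans (mul_le_mul_of_nonneg_left hsz hτ₁)
  have A5 : (ct fun x => L (ρ u (β x)) = some j ∧ ¬ L (β⁻¹ (ρ u (β x))) = some i) ≤
      (1 / 10 + κ) * sz L i := by
    have h0 : (ct fun x => L (ρ u (β x)) = some j ∧ ¬ L (β⁻¹ (ρ u (β x))) = some i) =
        ct fun z => L z = some j ∧ ¬ L (β⁻¹ z) = some i :=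
      ct_perm (fun z => L z = some j ∧ ¬ L (β⁻¹ z) = some i) (ρ u * β)
    have h1 := ct_split (fun z => L z = some j) (fun z => L (β⁻¹ z) = some i)
    have h2 : (ct fun z => L z = some j ∧ L (β⁻¹ z) = some i) = ov L β i j := ov_inv L β i j
    rw [h0]
    unfold sz at *
    linarith
  have A6 : (ct fun x => L (β⁻¹ (ρ u (β x))) = some i ∧ ¬ p (β⁻¹ (ρ u (β x))) = c) ≤
      κ * sz L i := by
    have h0 : (ct fun x => L (β⁻¹ (ρ u (β x))) = some i ∧ ¬ p (β⁻¹ (ρ u (β x))) = c) =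
        ct fun z => L z = some i ∧ ¬ p z = c :=
      ct_perm (fun z => L z = some i ∧ ¬ p z = c) (β⁻¹ * (ρ u * β))
    rw [h0]
    exact A2
  have htot : sz L i ≤ (ct fun x => L x = some i ∧ ¬ L (β x) = some j) +
      ((ct fun x => L x = some i ∧ ¬ p x = c) + ((ct fun x => L x = some i ∧ Z x) +
      ((ct fun x => L (β x) = some j ∧ ¬ L (ρ u (β x)) = some j) +
      ((ct fun x => L (ρ u (β x)) = some j ∧ ¬ L (β⁻¹ (ρ u (β x))) = some i) +
      (ct fun x => L (β⁻¹ (ρ u (β x))) = some i ∧ ¬ p (β⁻¹ (ρ u (β x))) = c))))) := by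
    unfold sz
    refine (ct_le_add (q := fun x => L x = some i ∧ ¬ L (β x) = some j) (r := fun x =>
      (L x = some i ∧ ¬ p x = c) ∨ (L x = some i ∧ Z x) ∨
      (L (β x) = some j ∧ ¬ L (ρ u (β x)) = some j) ∨
      (L (ρ u (β x)) = some j ∧ ¬ L (β⁻¹ (ρ u (β x))) = some i) ∨
      (L (β⁻¹ (ρ u (β x))) = some i ∧ ¬ p (β⁻¹ (ρ u (β x))) = c)) ?_).trans
      (add_le_add le_rfl ((ct_le_add fun x hx => hx).trans (add_le_add le_rfl
        ((ct_le_add fun x hx => hx).trans (add_le_add le_rfl ((ct_le_add fun x hx => hx).trans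
          (add_le_add le_rfl (ct_le_add fun x hx => hx))))))))
    intro x hx
    by_cases c1 : L (β x) = some j
    · right
      by_cases c2 : p x = c
      · right
        by_cases c3 : Z x
        · exact Or.inl ⟨hx, c3⟩
        · right
          by_cases c4 : L (ρ u (β x)) = some j
          · right
            by_cases c5 : L (β⁻¹ (ρ u (β x))) = some i
            · right
              refine ⟨c5, fun c6 => hne x c3 ?_⟩
              rw [c6, c2]
            · exact Or.inl ⟨c4, c5⟩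
          · exact Or.inl ⟨c1, c4⟩
      · exact Or.inl ⟨hx, c2⟩
    · exact Or.inl ⟨hx, c1⟩
  have h5 : (κ + (κ + (τ₁ + (Λ * (τ₁ * (11 / 10)) + ((1 / 10 + κ) + κ))))) * sz L i < sz L i := by
    have h6 : κ + (κ + (τ₁ + (Λ * (τ₁ * (11 / 10)) + ((1 / 10 + κ) + κ)))) < 1 := by
      have : Λ * (τ₁ * (11 / 10)) = 11 / 10 * (Λ * τ₁) := by ring
      rw [this]
      linarith
    nlinarith
  nlinarith

/-- **Criterion.** Let `G` and its subgroup `K` have property (T), let `G` be generated by the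
elements `g` with `K ≤ g K g⁻¹`, one of which satisfies `K ≠ g K g⁻¹`. If `G` acts on a set and `K`
is the stabiliser of a point then the action is not sofic. -/
theorem not_sofic_action {G X : Type} [Group G] (α : G →* Equiv.Perm X) (K : Subgroup G)
    (hG : HasT G) (hK : HasT K)
    (hgen : Subgroup.closure {g : G | ∀ a ∈ K, g⁻¹ * a * g ∈ K} = ⊤) (g₀ : G)
    (hg₀ : ∀ a ∈ K, g₀⁻¹ * a * g₀ ∈ K) (k₀ : G) (hk₀ : k₀ ∈ K) (hgk : g₀ * k₀ * g₀⁻¹ ∉ K)
    (x₀ : X) (hst : ∀ g : G, α g x₀ = x₀ ↔ g ∈ K) : ¬ IsSofic α := by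
  classical
  intro hα
  have hLv : S_LEVEL := Pool.Agent.N69.NS.t_level
  -- generators
  obtain ⟨m, γ, s0, hγ, hmon, hs0⟩ := exists_gen hG hgen (show g₀ ∈ {g : G | ∀ a ∈ K,
    g⁻¹ * a * g ∈ K} from hg₀)
  obtain ⟨k, γK, hγK⟩ := Pool.Agent.N303.KQ.exists_free hK
  -- words
  have hW : ∀ (s : Fin m) (t : Fin k), ∃ w : FreeGroup (Fin k),
      (γK (FreeGroup.of t) : G) * γ (FreeGroup.of s) = γ (FreeGroup.of s) * (γK w : G) := by
    intro s t
    obtain ⟨w, hw⟩ := hγK ⟨_, hmon s _ (γK (FreeGroup.of t)).2⟩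
    refine ⟨w, ?_⟩
    rw [hw]
    group
  choose W hW using hW
  obtain ⟨u, hu⟩ := hγK ⟨k₀, hk₀⟩
  -- constants
  obtain ⟨τ', hτ'0, hτ'κ, hsys'⟩ := exists_sys γ hG hγ (show (0 : ℝ) < 1 / 1000 by norm_num)
    (by norm_num)
  obtain ⟨b, hb0, hb1, hlev⟩ := hLv m (1 / 1000) τ' (1 / 10) (by norm_num) (by norm_num) hτ'0
    (by norm_num) (by norm_num)
  obtain ⟨ε', hε'0, hε'b, Rel', hRel', hsys'⟩ := hsys' b hb0 (by linarith)
  set κ : ℝ := b / 16 with hκ
  have hκ0 : 0 < κ := by positivity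
  have hκ1 : κ ≤ 1 / 16000 := by rw [hκ]; linarith
  obtain ⟨τ, hτ0, hτκ, hsys⟩ := exists_sys γK hK hγK hκ0 (show κ ≤ 1 / 100 by linarith)
  choose len hlen using fun w : FreeGroup (Fin k) => word_bd w
  set 𝒲 : Finset (FreeGroup (Fin k)) :=
    ((univ : Finset (Fin m × Fin k)).image fun p => W p.1 p.2) ∪ {u} with h𝒲
  set Λ : ℝ := 1 + ∑ w ∈ 𝒲, (len w : ℝ) with hΛ
  have hΛ0 : (0 : ℝ) ≤ ∑ w ∈ 𝒲, (len w : ℝ) := sum_nonneg fun _ _ => Nat.cast_nonneg _
  have hΛ1 : 1 ≤ Λ := by rw [hΛ]; linarith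
  have hlenΛ : ∀ w ∈ 𝒲, ∀ (B : Type) [Fintype B] (ρ : FreeGroup (Fin k) →* Equiv.Perm B)
      (p : B → Prop), (ct fun a => p a ∧ ¬ p (ρ w a)) ≤ Λ * bd ρ p := by
    intro w hw B _ ρ p
    refine (hlen w B ρ p).trans (mul_le_mul_of_nonneg_right ?_ (bd_nonneg ρ p))
    have h1 : (len w : ℝ) ≤ ∑ w ∈ 𝒲, (len w : ℝ) :=
      single_le_sum (f := fun w => (len w : ℝ)) (fun _ _ => Nat.cast_nonneg _) hw
    rw [hΛ]; linarith
  set τ₁ : ℝ := κ * τ / ((k + 2) * (1 + Λ)) with hτ₁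
  have hm0 : (0 : ℝ) ≤ k := Nat.cast_nonneg k
  have hden : 0 < ((k : ℝ) + 2) * (1 + Λ) := by positivity
  have hτ₁0 : 0 < τ₁ := by rw [hτ₁]; positivity
  have hnum : τ₁ * ((k + 2) * (1 + Λ)) = κ * τ := by
    rw [hτ₁]; field_simp
  have hn : Num k κ τ τ₁ Λ := ⟨hκ0, by linarith, hτ0, hτκ, hτ₁0.le, hΛ1, hnum.le⟩
  obtain ⟨ε, hε0, hετ, Rel, hRel, hsys⟩ := hsys τ₁ hτ₁0 (by linarith [hn.a3])
  -- words in the free group on `G`
  set jG : FreeGroup (Fin m) →* FreeGroup G :=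
    FreeGroup.lift fun s => FreeGroup.of (γ (FreeGroup.of s)) with hjG
  set jK : FreeGroup (Fin k) →* FreeGroup G :=
    FreeGroup.lift fun s => FreeGroup.of (γK (FreeGroup.of s) : G) with hjK
  have hcG : ∀ w, cn G (jG w) = γ w := by
    intro w
    have h1 : (cn G).comp jG = γ := by
      ext s
      simp [hjG]
    exact DFunLike.congr_fun h1 w
  have hcK : ∀ w, cn G (jK w) = (γK w : G) := by
    intro w
    have h1 : (cn G).comp jK = K.subtype.comp γK := by
      ext s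
      simp [hjK]
    exact DFunLike.congr_fun h1 w
  have hco : ∀ g : G, cn G (FreeGroup.of g) = g := fun g => by simp
  set E1 : Finset (FreeGroup G) := (univ : Finset (Fin m × Fin k)).image fun p =>
    (FreeGroup.of (γ (FreeGroup.of p.1)) * jK (W p.1 p.2))⁻¹ *
      (jK (FreeGroup.of p.2) * FreeGroup.of (γ (FreeGroup.of p.1))) with hE1
  set E : Finset (FreeGroup G) := Rel'.image jG ∪ (Rel.image jK ∪ E1) with hE
  set WW : Finset (FreeGroup G) := (univ : Finset (Fin k)).image fun s => jK (FreeGroup.of s)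
    with hWW
  set v : FreeGroup G := FreeGroup.of g₀ * jK u * (FreeGroup.of g₀)⁻¹ with hv
  have hEc : ∀ r ∈ E, cn G r = 1 := by
    intro r hr
    rw [hE] at hr
    simp only [mem_union] at hr
    rcases hr with hr | hr | hr
    · obtain ⟨w, hw, rfl⟩ := mem_image.1 hr
      rw [hcG, hRel' w hw]
    · obtain ⟨w, hw, rfl⟩ := mem_image.1 hr
      rw [hcK, hRel w hw, Subgroup.coe_one]
    · obtain ⟨p, -, rfl⟩ := mem_image.1 hr
      rw [map_mul, map_inv, inv_mul_eq_one, map_mul, map_mul, hcK, hcK, hco]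
      exact (hW p.1 p.2).symm
  have hWc : ∀ w ∈ WW, α (cn G w) x₀ = x₀ := by
    intro w hw
    obtain ⟨s, -, rfl⟩ := mem_image.1 hw
    rw [hcK, hst]
    exact (γK (FreeGroup.of s)).2
  have hvc : α (cn G v) x₀ ≠ x₀ := by
    rw [Ne, hst, hv, map_mul, map_mul, map_inv, hco, hcK, hu]
    exact hgk
  obtain ⟨V, _, hd, Ψ, O, p, hct⟩ := act_words hα E hEc x₀ WW hWc v hvc (lt_min hε0 hε'0)
  set Z : V → Prop := fun y => (∃ r ∈ E, Ψ r y ≠ y) ∨ (∃ w ∈ WW, p (Ψ w y) ≠ p y) ∨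
    p (Ψ v y) = p y with hZ
  have hd0 : (0 : ℝ) < Fintype.card V := by exact_mod_cast hd
  have hZ1 : ct Z ≤ ε * Fintype.card V :=
    hct.trans (mul_le_mul_of_nonneg_right (min_le_left _ _) hd0.le)
  have hZ1' : ct Z ≤ ε' * Fintype.card V :=
    hct.trans (mul_le_mul_of_nonneg_right (min_le_right _ _) hd0.le)
  have hZE : ∀ r ∈ E, ∀ x, ¬ Z x → Ψ r x = x := by
    intro r hr x hx
    by_contra h
    exact hx (Or.inl ⟨r, hr, h⟩)
  have hZE2 : ∀ w1 w2 : FreeGroup G, w2⁻¹ * w1 ∈ E → ∀ x, ¬ Z x → Ψ w1 x = Ψ w2 x := by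
    intro w1 w2 hr x hx
    have h1 := hZE _ hr x hx
    rw [map_mul, map_inv, Equiv.Perm.mul_apply, Equiv.Perm.inv_eq_iff_eq] at h1
    exact h1
  obtain ⟨L', hS'⟩ := hsys' V (Ψ.comp jG) Z hZ1' (by
    intro w hw x hx
    refine hZE (jG w) ?_ x hx
    rw [hE]
    exact mem_union_left _ (mem_image_of_mem _ hw))
  obtain ⟨L, hS⟩ := hsys V (Ψ.comp jK) Z hZ1 (by
    intro w hw x hx
    refine hZE (jK w) ?_ x hx
    rw [hE]
    exact mem_union_right _ (mem_union_left _ (mem_image_of_mem _ hw)))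
  have hZτ : ct Z ≤ τ₁ * Fintype.card V :=
    hZ1.trans (mul_le_mul_of_nonneg_right hετ hd0.le)
  -- the generators move pieces into larger pieces
  have hcnt : ∀ s : Fin m, ∃ f : V → V, (ct fun x => ¬ ∃ i, L x = some i ∧
      L ((Ψ.comp jG (FreeGroup.of s))⁻¹ x) = some (f i) ∧
      (1 - κ) * sz L i ≤ ov L (Ψ.comp jG (FreeGroup.of s))⁻¹ i (f i)) ≤
        5 * κ * Fintype.card V := by
    intro s
    refine mono_count (w := W s) hS hκ0 (by linarith) hτ0 hZτ (by linarith) ?_ hn.a2 hτ₁0.le ?_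
    · intro t B _ ρ' q
      refine hlenΛ (W s t) ?_ B ρ' q
      rw [h𝒲]
      exact mem_union_left _ (mem_image.2 ⟨(s, t), mem_univ _, rfl⟩)
    · intro t x hx
      rw [inv_inv]
      have h1 := hZE2 (jK (FreeGroup.of t) * FreeGroup.of (γ (FreeGroup.of s)))
        (FreeGroup.of (γ (FreeGroup.of s)) * jK (W s t)) (by
          rw [hE]
          refine mem_union_right _ (mem_union_right _ ?_)
          exact mem_image.2 ⟨(s, t), mem_univ _, rfl⟩) x hx
      have h2 : Ψ.comp jG (FreeGroup.of s) = Ψ (FreeGroup.of (γ (FreeGroup.of s))) := by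
        rw [MonoidHom.comp_apply, hjG, FreeGroup.lift_apply_of]
      rw [h2]
      rw [map_mul, map_mul] at h1
      exact h1
  choose f hf using hcnt
  have hmono : ∀ s : Fin m, (ct fun x => X0 L ((Ψ.comp jG (FreeGroup.of s))⁻¹ x) <
      (1 - b) * X0 L x) ≤ b * Fintype.card V := by
    intro s
    have h1 : (ct fun x => X0 L ((Ψ.comp jG (FreeGroup.of s))⁻¹ x) < (1 - b) * X0 L x) ≤
        5 * κ * Fintype.card V := by
      refine le_trans (ct_mono ?_) (hf s)
      rintro x hx ⟨i, h1, h2, h3⟩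
      rw [X0_some h1, X0_some h2] at hx
      have h4 := ov_le2 L (Ψ.comp jG (FreeGroup.of s))⁻¹ i (f s i)
      have h5 := sz_nonneg L i
      have h6 : (1 - b) * sz L i ≤ (1 - κ) * sz L i :=
        mul_le_mul_of_nonneg_right (by rw [hκ]; linarith) h5
      linarith
    refine h1.trans (mul_le_mul_of_nonneg_right ?_ (Nat.cast_nonneg _))
    rw [hκ]; linarith
  have hzero : (ct fun x => X0 L x = 0) ≤ b * Fintype.card V := by
    refine (ct_mono fun x hx => X0_zero hx).trans (hS.cov.trans ?_)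
    refine mul_le_mul_of_nonneg_right ?_ (Nat.cast_nonneg _)
    rw [hκ]; linarith
  have hconst := hlev V (Ψ.comp jG) L' (X0 L) hS'.cov hS'.bdy hS'.irr (X0_nonneg L) hzero
    hmono s0
  -- a good piece
  obtain ⟨x, hx1, hx2⟩ : ∃ x, (∃ i, L x = some i ∧
      L ((Ψ.comp jG (FreeGroup.of s0))⁻¹ x) = some (f s0 i) ∧
      (1 - κ) * sz L i ≤ ov L (Ψ.comp jG (FreeGroup.of s0))⁻¹ i (f s0 i)) ∧
      X0 L ((Ψ.comp jG (FreeGroup.of s0))⁻¹ x) ≤ (1 + 1 / 10) * X0 L x := by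
    by_contra hcon
    push Not at hcon
    have h1 : (ct fun _ : V => True) ≤ _ + _ := ct_le_add (q := fun x => ¬ ∃ i, L x = some i ∧
      L ((Ψ.comp jG (FreeGroup.of s0))⁻¹ x) = some (f s0 i) ∧
      (1 - κ) * sz L i ≤ ov L (Ψ.comp jG (FreeGroup.of s0))⁻¹ i (f s0 i))
      (r := fun x => ¬ X0 L ((Ψ.comp jG (FreeGroup.of s0))⁻¹ x) ≤ (1 + 1 / 10) * X0 L x)
      fun x _ => by
        by_cases c : ∃ i, L x = some i ∧
            L ((Ψ.comp jG (FreeGroup.of s0))⁻¹ x) = some (f s0 i) ∧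
            (1 - κ) * sz L i ≤ ov L (Ψ.comp jG (FreeGroup.of s0))⁻¹ i (f s0 i)
        · right
          obtain ⟨i, c1, c2, c3⟩ := c
          exact not_le.2 (hcon x ⟨i, c1, c2, c3⟩)
        · exact Or.inl c
    have h2 := hf s0
    rw [ct_univ] at h1
    have h3 : 5 * κ * (Fintype.card V : ℝ) ≤ 5 * (1 / 16000) * Fintype.card V :=
      mul_le_mul_of_nonneg_right (by linarith) hd0.le
    linarith
  obtain ⟨i, hi1, hi2, hi3⟩ := hx1
  rw [X0_some hi1, X0_some hi2] at hx2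
  have hipos : 0 < sz L i := by
    have : (1 : ℝ) ≤ sz L i := ct_pos' (p := fun y => L y = some i) hi1
    linarith
  have hβ : (Ψ.comp jG (FreeGroup.of s0))⁻¹ = Ψ (FreeGroup.of g₀)⁻¹ := by
    rw [MonoidHom.comp_apply, hjG, FreeGroup.lift_apply_of, hs0, map_inv]
  rw [hβ] at hi2 hi3
  refine piece_contra hS hn p ?_ (Ψ (FreeGroup.of g₀)⁻¹) u ?_ hipos hi3 (by linarith) ?_
  · intro s y hy
    by_contra hne
    refine hy (Or.inr (Or.inl ⟨jK (FreeGroup.of s), ?_, hne⟩))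
    rw [hWW]
    exact mem_image_of_mem _ (mem_univ s)
  · intro q
    refine hlenΛ u ?_ _ _ q
    rw [h𝒲]
    exact mem_union_right _ (mem_singleton_self u)
  · intro y hy heq
    refine hy (Or.inr (Or.inr ?_))
    rw [hv, map_mul, map_mul]
    rw [map_inv, inv_inv] at heq
    rw [map_inv]
    exact heq

end

end Pool.Agent.N540.SA
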