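import Mathlib

/-!
# Sofic actions on sets: definitions
-/

set_option autoImplicit false

namespace Pool.Agent.N540.SA

open Equiv

/-- The normalised Hamming distance on the permutations of a finite set. -/
noncomputable def hdist {A : Type} (σ τ : Perm A) : ℝ :=
  ({a | σ a ≠ τ a} : Set A).ncard / Nat.card A

/-- The map `φ : G → Sym(A)` is unital. -/
def Unital {G A : Type} [Group G] (φ : G → Perm A) : Prop := φ 1 = 1

/-- The map `φ : G → Sym(A)` is `(F, ε)`-multiplicative. -/
def IsMult {G A : Type} [Group G] (F : Finset G) (ε : ℝ) (φ : G → Perm A) : Prop :=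
  ∀ g ∈ F, ∀ h ∈ F, hdist (φ (g * h)) (φ g * φ h) < ε

/-- The map `φ : G → Sym(A)` is an `(F, E, ε)`-orbit approximation of the action
`α : G → Sym(X)`: there are a finite set `B`, a subset `S` of `A` with more than `(1 - ε)|A|`
elements and embeddings `π s` of `E` into `B` for `s ∈ S` such that
`π (φ(g) s) x = π s (α(g⁻¹) x)` whenever `g ∈ F`, `s, φ(g) s ∈ S` and `x, α(g⁻¹) x ∈ E`. -/
def IsOrbitApprox {G A X : Type} [Group G] (α : G →* Perm X) (F : Finset G) (E : Finset X)
    (ε : ℝ) (φ : G → Perm A) : Prop :=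
  ∃ (B : Type) (_ : Finite B) (S : Set A) (π : S → ({x // x ∈ E} ↪ B)),
    (1 - ε) * Nat.card A < S.ncard ∧
    ∀ s s' : S, ∀ g ∈ F, ∀ x x' : {x // x ∈ E}, φ g s.1 = s'.1 → α g⁻¹ x.1 = x'.1 →
      π s' x = π s x'

/-- The action `α` of the group `G` on the set `X` is sofic. -/
def IsSofic {G X : Type} [Group G] (α : G →* Perm X) : Prop :=
  ∀ (F : Finset G) (E : Finset X) (ε : ℝ), 0 < ε →
    ∃ (A : Type) (_ : Finite A) (φ : G → Perm A),
      Unital φ ∧ IsMult F ε φ ∧ IsOrbitApprox α F E ε φ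

end Pool.Agent.N540.SA
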