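import Pool.Agent.N540.SA.Defs
import Pool.Agent.N303.KS.Cnt

/-!
# Approximations of sofic actions and words
-/

set_option autoImplicit false

namespace Pool.Agent.N540.SA

open Finset Filter Equiv
open Pool.Agent.N303.KS

noncomputable section

variable {G X : Type} [Group G]

/-- an approximation of an action -/
structure AApp (G X : Type) where
  V : Type
  fin : Fintype V
  pos : 0 < Fintype.card V
  σ : G → Perm V
  O : Type
  p : V → X → O

attribute [instance] AApp.fin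

/-- quality of an approximation -/
def GoodA (α : G →* Perm X) (F : Finset G) (E : Finset X) (ε : ℝ) (x : AApp G X) : Prop :=
  x.σ 1 = 1 ∧
    (∀ a ∈ F, ∀ b ∈ F,
      (ct fun y => x.σ (a * b) y ≠ x.σ a (x.σ b y)) ≤ ε * Fintype.card x.V) ∧
    (∀ u ∈ E, ∀ v ∈ E, u ≠ v → (ct fun y => x.p y u = x.p y v) ≤ ε * Fintype.card x.V) ∧
    ∀ a ∈ F, ∀ u ∈ E, α a⁻¹ u ∈ E →
      (ct fun y => x.p (x.σ a y) u ≠ x.p y (α a⁻¹ u)) ≤ ε * Fintype.card x.V

theorem GoodA.mono {α : G →* Perm X} {F F' : Finset G} {E E' : Finset X} {ε δ : ℝ} {x : AApp G X}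
    (h : GoodA α F' E' δ x) (hF : F ⊆ F') (hE : E ⊆ E') (hδ : δ ≤ ε) : GoodA α F E ε x := by
  have hn : (0 : ℝ) ≤ Fintype.card x.V := Nat.cast_nonneg _
  refine ⟨h.1, fun a ha b hb => ?_, fun u hu v hv huv => ?_, fun a ha u hu hau => ?_⟩
  · exact (h.2.1 a (hF ha) b (hF hb)).trans (mul_le_mul_of_nonneg_right hδ hn)
  · exact (h.2.2.1 u (hE hu) v (hE hv) huv).trans (mul_le_mul_of_nonneg_right hδ hn)
  · exact (h.2.2.2 a (hF ha) u (hE hu) (hE hau)).trans (mul_le_mul_of_nonneg_right hδ hn)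

/-- the filter of good approximations -/
def aF (α : G →* Perm X) : Filter (AApp G X) where
  sets := {s | ∃ (F : Finset G) (E : Finset X) (ε : ℝ), 0 < ε ∧ ∀ x, GoodA α F E ε x → x ∈ s}
  univ_sets := ⟨∅, ∅, 1, one_pos, fun _ _ => Set.mem_univ _⟩
  sets_of_superset := by
    rintro s t ⟨F, E, ε, hε, h⟩ hst
    exact ⟨F, E, ε, hε, fun x hx => hst (h x hx)⟩
  inter_sets := by
    classical
    rintro s t ⟨F, E, ε, hε, h⟩ ⟨F', E', δ, hδ, h'⟩
    refine ⟨F ∪ F', E ∪ E', min ε δ, lt_min hε hδ, fun x hx => ⟨h x ?_, h' x ?_⟩⟩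
    · exact hx.mono subset_union_left subset_union_left (min_le_left _ _)
    · exact hx.mono subset_union_right subset_union_right (min_le_right _ _)

theorem eventually_aF {α : G →* Perm X} {p : AApp G X → Prop} :
    (∀ᶠ x in aF α, p x) ↔
      ∃ (F : Finset G) (E : Finset X) (ε : ℝ), 0 < ε ∧ ∀ x, GoodA α F E ε x → p x :=
  Iff.rfl

theorem ct_ncard {A : Type} [Fintype A] (p : A → Prop) : ct p = (({a | p a} : Set A).ncard : ℝ) := by
  classical
  unfold ct
  rw [Set.ncard_eq_toFinset_card']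
  congr 2
  ext a
  simp

theorem exists_good {α : G →* Perm X} (hα : IsSofic α) (F : Finset G) (E : Finset X) {ε : ℝ}
    (hε : 0 < ε) : ∃ x : AApp G X, GoodA α F E ε x := by
  classical
  obtain ⟨A, hA, φ, h1, h2, B, hB, S, π, hS, hπ⟩ := hα F E (ε / 2) (by positivity)
  letI := Fintype.ofFinite A
  have hcard : (Nat.card A : ℝ) = Fintype.card A := by rw [Nat.card_eq_fintype_card]
  have hSc : (ct fun a => a ∉ S) ≤ ε / 2 * Fintype.card A := by
    have h3 := ct_split (fun _ : A => True) (fun a => a ∈ S)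
    have h4 : (ct fun a => True ∧ a ∈ S) = S.ncard := by
      rw [ct_ncard]
      congr 2
      ext a
      simp
    have h5 : (ct fun a => True ∧ a ∉ S) = ct fun a => a ∉ S := ct_congr fun a => by simp
    rw [ct_univ, h4, h5] at h3
    rw [hcard] at hS
    linarith
  have hpos : 0 < Fintype.card A := by
    by_contra h0
    have h0' : Fintype.card A = 0 := by omega
    have h3 : S.ncard = 0 := by
      have := Fintype.card_eq_zero_iff.1 h0'
      rw [Set.ncard_eq_zero]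
      exact Set.eq_empty_of_isEmpty S
    rw [hcard, h0', h3] at hS
    simp at hS
  have hpR : (0 : ℝ) < Fintype.card A := by exact_mod_cast hpos
  refine ⟨⟨A, inferInstance, hpos, φ, Option B,
    fun s x => if h : s ∈ S ∧ x ∈ E then some (π ⟨s, h.1⟩ ⟨x, h.2⟩) else none⟩, h1, ?_, ?_, ?_⟩
  · intro a ha b hb
    have h3 := h2 a ha b hb
    rw [hdist, hcard, div_lt_iff₀ hpR] at h3
    show (ct fun y : A => φ (a * b) y ≠ φ a (φ b y)) ≤ ε * Fintype.card A
    rw [ct_ncard]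
    refine le_trans (le_of_eq ?_) (h3.le.trans ?_)
    · rfl
    · nlinarith
  · intro u hu v hv huv
    show (ct fun y : A => (if h : y ∈ S ∧ u ∈ E then some (π ⟨y, h.1⟩ ⟨u, h.2⟩) else none) =
      if h : y ∈ S ∧ v ∈ E then some (π ⟨y, h.1⟩ ⟨v, h.2⟩) else none) ≤ ε * Fintype.card A
    refine (ct_mono (q := fun a => a ∉ S) fun y hy hyS => ?_).trans (hSc.trans (by nlinarith))
    rw [dif_pos ⟨hyS, hu⟩, dif_pos ⟨hyS, hv⟩, Option.some.injEq] at hy
    have := (π ⟨y, hyS⟩).injective hy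
    exact huv (congrArg Subtype.val this)
  · intro a ha u hu hau
    show (ct fun y : A => (if h : φ a y ∈ S ∧ u ∈ E then some (π ⟨φ a y, h.1⟩ ⟨u, h.2⟩) else none) ≠
      if h : y ∈ S ∧ α a⁻¹ u ∈ E then some (π ⟨y, h.1⟩ ⟨α a⁻¹ u, h.2⟩) else none) ≤
        ε * Fintype.card A
    refine (ct_le_add (q := fun y => φ a y ∉ S) (r := fun y => y ∉ S) ?_).trans ?_
    · intro y hy
      by_contra hcon
      push Not at hcon
      apply hy
      rw [dif_pos ⟨hcon.1, hu⟩, dif_pos ⟨hcon.2, hau⟩]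
      exact congrArg some (hπ ⟨y, hcon.2⟩ ⟨φ a y, hcon.1⟩ a ha ⟨u, hu⟩ ⟨α a⁻¹ u, hau⟩ rfl rfl)
    · rw [ct_perm (fun y => y ∉ S) (φ a)]
      linarith

theorem aF_neBot {α : G →* Perm X} (hα : IsSofic α) : (aF α).NeBot := by
  rw [neBot_iff]
  intro hbot
  have h : ∀ᶠ x in aF α, False := by rw [hbot]; exact mem_bot
  rw [eventually_aF] at h
  obtain ⟨F, E, ε, hε, h⟩ := h
  obtain ⟨x, hx⟩ := exists_good hα F E hε
  exact h x hx

variable {α : G →* Perm X}

theorem av_one : ∀ᶠ x in aF α, x.σ 1 = 1 :=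
  eventually_aF.2 ⟨∅, ∅, 1, one_pos, fun _ hx => hx.1⟩

theorem av_mul (a b : G) {η : ℝ} (hη : 0 < η) :
    ∀ᶠ x in aF α, (ct fun y => x.σ (a * b) y ≠ x.σ a (x.σ b y)) ≤ η * Fintype.card x.V := by
  classical
  refine eventually_aF.2 ⟨{a, b}, ∅, η, hη, fun x hx => ?_⟩
  exact hx.2.1 a (by simp) b (by simp)

theorem av_inj {u v : X} (huv : u ≠ v) {η : ℝ} (hη : 0 < η) :
    ∀ᶠ x in aF α, (ct fun y => x.p y u = x.p y v) ≤ η * Fintype.card x.V := by
  classical
  refine eventually_aF.2 ⟨∅, {u, v}, η, hη, fun x hx => ?_⟩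
  exact hx.2.2.1 u (by simp) v (by simp) huv

theorem av_equi (a : G) (u : X) {η : ℝ} (hη : 0 < η) :
    ∀ᶠ x in aF α, (ct fun y => x.p (x.σ a y) u ≠ x.p y (α a⁻¹ u)) ≤ η * Fintype.card x.V := by
  classical
  refine eventually_aF.2 ⟨{a}, {u, α a⁻¹ u}, η, hη, fun x hx => ?_⟩
  exact hx.2.2.2 a (by simp) u (by simp) (by simp)

/-- the canonical homomorphism from the free group on `G` -/
abbrev cn (G : Type) [Group G] : FreeGroup G →* G := FreeGroup.lift id

/-- the homomorphism of the free group on `G` given by an approximation -/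
def Pa (x : AApp G X) : FreeGroup G →* Perm x.V := FreeGroup.lift x.σ

theorem av_word (w : FreeGroup G) : ∀ η : ℝ, 0 < η →
    ∀ᶠ x in aF α, (ct fun y => Pa x w y ≠ x.σ (cn G w) y) ≤ η * Fintype.card x.V := by
  induction w using FreeGroup.induction_on with
  | C1 =>
    intro η hη
    filter_upwards [av_one] with x hx
    rw [ct_false]
    · positivity
    · intro y hy
      apply hy
      rw [map_one, map_one, hx]
  | of a =>
    intro η hη
    filter_upwards with x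
    rw [ct_false]
    · positivity
    · intro y hy
      apply hy
      rw [Pa, FreeGroup.lift_apply_of, FreeGroup.lift_apply_of, id]
  | inv_of a _ =>
    intro η hη
    filter_upwards [av_mul a⁻¹ a hη, av_one] with x hx hx1
    refine le_trans ?_ hx
    rw [← ct_perm (fun y => Pa x (FreeGroup.of a)⁻¹ y ≠ x.σ (cn G (FreeGroup.of a)⁻¹) y) (x.σ a)]
    refine ct_mono fun y hy h => hy ?_
    rw [inv_mul_cancel, hx1] at h
    rw [map_inv, map_inv, Pa, FreeGroup.lift_apply_of, FreeGroup.lift_apply_of, id, ← h]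
    exact (x.σ a).symm_apply_apply y
  | mul u v hu hv =>
    intro η hη
    filter_upwards [hu (η / 3) (by positivity), hv (η / 3) (by positivity),
      av_mul (cn G u) (cn G v) (show 0 < η / 3 by positivity)] with x h1 h2 h3
    have h4 : (ct fun y => Pa x (u * v) y ≠ x.σ (cn G (u * v)) y) ≤
        (ct fun y => Pa x v y ≠ x.σ (cn G v) y) +
        ct fun y => Pa x u (x.σ (cn G v) y) ≠ x.σ (cn G u) (x.σ (cn G v) y) ∨
          x.σ (cn G u * cn G v) y ≠ x.σ (cn G u) (x.σ (cn G v) y) := ct_le_add fun y hy => by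
      by_cases c1 : Pa x v y = x.σ (cn G v) y
      · right
        by_cases c2 : Pa x u (x.σ (cn G v) y) = x.σ (cn G u) (x.σ (cn G v) y)
        · right
          intro c3
          apply hy
          rw [map_mul, map_mul, c3, Equiv.Perm.mul_apply, c1, c2]
        · exact Or.inl c2
      · exact Or.inl c1
    have h5 : (ct fun y => Pa x u (x.σ (cn G v) y) ≠ x.σ (cn G u) (x.σ (cn G v) y) ∨
          x.σ (cn G u * cn G v) y ≠ x.σ (cn G u) (x.σ (cn G v) y)) ≤
        (ct fun y => Pa x u (x.σ (cn G v) y) ≠ x.σ (cn G u) (x.σ (cn G v) y)) +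
          ct fun y => x.σ (cn G u * cn G v) y ≠ x.σ (cn G u) (x.σ (cn G v) y) :=
      ct_le_add fun y hy => hy
    rw [ct_perm (fun y => Pa x u y ≠ x.σ (cn G u) y) (x.σ (cn G v))] at h5
    linarith

theorem av_rel {w : FreeGroup G} (hw : cn G w = 1) {η : ℝ} (hη : 0 < η) :
    ∀ᶠ x in aF α, (ct fun y => Pa x w y ≠ y) ≤ η * Fintype.card x.V := by
  filter_upwards [av_word w η hη, av_one] with x hx hx1
  rw [hw, hx1] at hx
  exact hx

theorem av_wequi (w : FreeGroup G) (u : X) {η : ℝ} (hη : 0 < η) :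
    ∀ᶠ x in aF α, (ct fun y => x.p (Pa x w y) u ≠ x.p y (α (cn G w)⁻¹ u)) ≤
      η * Fintype.card x.V := by
  filter_upwards [av_word w (η / 2) (by positivity), av_equi (cn G w) u
    (show 0 < η / 2 by positivity)] with x h1 h2
  refine (ct_le_add (q := fun y => Pa x w y ≠ x.σ (cn G w) y)
    (r := fun y => x.p (x.σ (cn G w) y) u ≠ x.p y (α (cn G w)⁻¹ u)) ?_).trans (by linarith)
  intro y hy
  by_cases c : Pa x w y = x.σ (cn G w) y
  · right
    rw [← c]
    exact hy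
  · exact Or.inl c

theorem av_stab {w : FreeGroup G} {u : X} (hw : α (cn G w) u = u) {η : ℝ} (hη : 0 < η) :
    ∀ᶠ x in aF α, (ct fun y => x.p (Pa x w y) u ≠ x.p y u) ≤ η * Fintype.card x.V := by
  have h : α (cn G w)⁻¹ u = u := by
    rw [map_inv, Perm.inv_eq_iff_eq]
    exact hw.symm
  filter_upwards [av_wequi w u hη] with x h1
  rw [h] at h1
  exact h1

theorem av_move {w : FreeGroup G} {u : X} (hw : α (cn G w) u ≠ u) {η : ℝ} (hη : 0 < η) :
    ∀ᶠ x in aF α, (ct fun y => x.p (Pa x w y) u = x.p y u) ≤ η * Fintype.card x.V := by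
  have h : u ≠ α (cn G w)⁻¹ u := by
    rw [map_inv]
    intro h
    exact hw ((Perm.inv_eq_iff_eq.1 h.symm).symm)
  filter_upwards [av_wequi w u (show 0 < η / 2 by positivity),
    av_inj h (show 0 < η / 2 by positivity)] with x h1 h2
  refine (ct_le_add (q := fun y => x.p (Pa x w y) u ≠ x.p y (α (cn G w)⁻¹ u))
    (r := fun y => x.p y u = x.p y (α (cn G w)⁻¹ u)) ?_).trans (by linarith)
  intro y hy
  by_cases c : x.p (Pa x w y) u = x.p y (α (cn G w)⁻¹ u)
  · right
    rw [← c]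
    exact hy.symm
  · exact Or.inl c

/-- **Sofic actions in terms of words.** -/
theorem act_words (hα : IsSofic α) (E : Finset (FreeGroup G)) (hE : ∀ r ∈ E, cn G r = 1) (u : X)
    (W : Finset (FreeGroup G)) (hW : ∀ w ∈ W, α (cn G w) u = u) (v : FreeGroup G)
    (hv : α (cn G v) u ≠ u) {ε : ℝ} (hε : 0 < ε) :
    ∃ (V : Type) (_ : Fintype V) (_ : 0 < Fintype.card V) (Ψ : FreeGroup G →* Perm V) (O : Type)
      (p : V → O), (ct fun y => (∃ r ∈ E, Ψ r y ≠ y) ∨ (∃ w ∈ W, p (Ψ w y) ≠ p y) ∨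
        p (Ψ v y) = p y) ≤ ε * Fintype.card V := by
  classical
  haveI := aF_neBot hα
  set η : ℝ := ε / (E.card + W.card + 1) with hη
  have hη0 : 0 < η := by positivity
  have h1 : ∀ᶠ x in aF α, ∀ r ∈ E, (ct fun y => Pa x r y ≠ y) ≤ η * Fintype.card x.V := by
    rw [eventually_all_finset]
    exact fun r hr => av_rel (hE r hr) hη0
  have h2 : ∀ᶠ x in aF α, ∀ w ∈ W, (ct fun y => x.p (Pa x w y) u ≠ x.p y u) ≤
      η * Fintype.card x.V := by
    rw [eventually_all_finset]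
    exact fun w hw => av_stab (hW w hw) hη0
  obtain ⟨x, hx1, hx2, hx3⟩ := (h1.and (h2.and (av_move hv hη0))).exists
  refine ⟨x.V, x.fin, x.pos, Pa x, x.O, fun y => x.p y u, ?_⟩
  have h3 : (ct fun y => (∃ r ∈ E, Pa x r y ≠ y) ∨ (∃ w ∈ W, x.p (Pa x w y) u ≠ x.p y u) ∨
      x.p (Pa x v y) u = x.p y u) ≤
      (ct fun y => ∃ r ∈ E, Pa x r y ≠ y) + ct fun y => (∃ w ∈ W, x.p (Pa x w y) u ≠ x.p y u) ∨
        x.p (Pa x v y) u = x.p y u := ct_le_add fun y hy => hy
  have h4 : (ct fun y => (∃ w ∈ W, x.p (Pa x w y) u ≠ x.p y u) ∨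
      x.p (Pa x v y) u = x.p y u) ≤
      (ct fun y => ∃ w ∈ W, x.p (Pa x w y) u ≠ x.p y u) +
        ct fun y => x.p (Pa x v y) u = x.p y u := ct_le_add fun y hy => hy
  have h5 : (ct fun y => ∃ r ∈ E, Pa x r y ≠ y) ≤ ∑ r ∈ E, ct fun y => Pa x r y ≠ y :=
    ct_le_sum E _ fun y hy => hy
  have h6 : (∑ r ∈ E, ct fun y => Pa x r y ≠ y) ≤ E.card * (η * Fintype.card x.V) := by
    rw [← nsmul_eq_mul]
    exact sum_le_card_nsmul _ _ _ hx1
  have h7 : (ct fun y => ∃ w ∈ W, x.p (Pa x w y) u ≠ x.p y u) ≤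
      ∑ w ∈ W, ct fun y => x.p (Pa x w y) u ≠ x.p y u :=
    ct_le_sum W (fun w y => x.p (Pa x w y) u ≠ x.p y u) fun y hy => hy
  have h8 : (∑ w ∈ W, ct fun y => x.p (Pa x w y) u ≠ x.p y u) ≤
      W.card * (η * Fintype.card x.V) := by
    rw [← nsmul_eq_mul]
    exact sum_le_card_nsmul _ _ _ hx2
  have h9 : (E.card : ℝ) * (η * Fintype.card x.V) + W.card * (η * Fintype.card x.V) +
      η * Fintype.card x.V = ε * Fintype.card x.V := by
    rw [hη]
    field_simp
  linarith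

end

end Pool.Agent.N540.SA
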