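import Pool.Agent.N540.SA.Defs

/-!
# Free actions of residually finite groups, restrictions, the action on `(G × G) / ΔK`
-/

set_option autoImplicit false

namespace Pool.Agent.N540.SA

open Equiv

/-- residually finite groups -/
def RF (G : Type) [Group G] : Prop :=
  ∀ g : G, g ≠ 1 → ∃ (Q : Type) (_ : Group Q) (_ : Finite Q) (f : G →* Q), f g ≠ 1

theorem RF.fin {G : Type} [Group G] (h : RF G) (D : Set G) (hD : D.Finite) (h1 : (1 : G) ∉ D) :
    ∃ N : Subgroup G, N.Normal ∧ N.FiniteIndex ∧ ∀ g ∈ D, g ∉ N := by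
  classical
  induction D, hD using Set.Finite.induction_on with
  | empty => exact ⟨⊤, inferInstance, inferInstance, fun g hg => absurd hg (Set.notMem_empty g)⟩
  | @insert a s ha hs ih =>
    obtain ⟨N, hN1, hN2, hN3⟩ := ih fun h => h1 (Set.mem_insert_of_mem a h)
    have ha1 : a ≠ 1 := fun h => h1 (by rw [← h]; exact Set.mem_insert a s)
    obtain ⟨Q, _, _, f, hf⟩ := h a ha1
    have hk : f.ker.FiniteIndex := by
      have : Finite f.range := inferInstance
      exact Subgroup.finiteIndex_ker f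
    refine ⟨N ⊓ f.ker, inferInstance, inferInstance, ?_⟩
    intro g hg hgN
    rcases Set.mem_insert_iff.1 hg with rfl | hg
    · exact hf hgN.2
    · exact hN3 g hg hgN.1

theorem hdist_self {A : Type} (σ : Perm A) : hdist σ σ = 0 := by
  unfold hdist
  simp

/-- **Free actions of residually finite groups are sofic.** -/
theorem sofic_of_free {G X : Type} [Group G] (hG : RF G) (α : G →* Perm X)
    (hfree : ∀ g x, α g x = x → g = 1) : IsSofic α := by
  classical
  intro F E ε hε
  set D : Set G := {g | ∃ x ∈ E, ∃ y ∈ E, x ≠ y ∧ α g x = y} with hD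
  have huniq : ∀ (g h : G) (x : X), α g x = α h x → g = h := by
    intro g h x hgh
    have h1 : α (h⁻¹ * g) x = x := by
      rw [map_mul, Perm.mul_apply, hgh, map_inv]
      exact (α h).symm_apply_apply x
    have := hfree _ _ h1
    rw [inv_mul_eq_one] at this
    exact this.symm
  have hDf : D.Finite := by
    refine Set.Finite.of_finite_image (f := fun g : G => if h : ∃ p : X × X, p.1 ∈ E ∧ p.2 ∈ E ∧
      α g p.1 = p.2 then some h.choose else none) (s := D) ?_ ?_
    · refine Set.Finite.subset (s := (some '' ((E ×ˢ E : Finset (X × X)) : Set (X × X)))) ?_ ?_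
      · exact Set.Finite.image _ (Finset.finite_toSet _)
      · rintro _ ⟨g, ⟨x, hx, y, hy, -, hg⟩, rfl⟩
        have h : ∃ p : X × X, p.1 ∈ E ∧ p.2 ∈ E ∧ α g p.1 = p.2 := ⟨(x, y), hx, hy, hg⟩
        beta_reduce
        rw [dif_pos h]
        refine ⟨h.choose, ?_, rfl⟩
        rw [Finset.mem_coe, Finset.mem_product]
        exact ⟨h.choose_spec.1, h.choose_spec.2.1⟩
    · rintro g ⟨x, hx, y, hy, -, hg⟩ g' ⟨x', hx', y', hy', -, hg'⟩ hgg
      have h : ∃ p : X × X, p.1 ∈ E ∧ p.2 ∈ E ∧ α g p.1 = p.2 := ⟨(x, y), hx, hy, hg⟩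
      have h' : ∃ p : X × X, p.1 ∈ E ∧ p.2 ∈ E ∧ α g' p.1 = p.2 := ⟨(x', y'), hx', hy', hg'⟩
      beta_reduce at hgg
      rw [dif_pos h, dif_pos h', Option.some.injEq] at hgg
      have e1 := h.choose_spec.2.2
      have e2 := h'.choose_spec.2.2
      rw [← hgg] at e2
      exact huniq g g' _ (e1.trans e2.symm)
  have hD1 : (1 : G) ∉ D := by
    rintro ⟨x, -, y, -, hxy, h⟩
    rw [map_one] at h
    exact hxy h
  obtain ⟨N, hN1, hN2, hN3⟩ := hG.fin D hDf hD1
  -- the orbits of `N`
  let st : Setoid X :=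
    { r := fun x y => ∃ n ∈ N, α n x = y
      iseqv := ⟨fun x => ⟨1, N.one_mem, by rw [map_one]; rfl⟩, by
        rintro x y ⟨n, hn, rfl⟩
        exact ⟨n⁻¹, N.inv_mem hn, by rw [map_inv]; exact (α n).symm_apply_apply x⟩, by
        rintro x y z ⟨n, hn, rfl⟩ ⟨n', hn', rfl⟩
        exact ⟨n' * n, N.mul_mem hn' hn, by rw [map_mul]; rfl⟩⟩ }
  let cl : (G ⧸ N) → {x // x ∈ E} → Quotient st := fun s x => Quotient.mk st (α (s.out)⁻¹ x.1)
  let B : Set (Quotient st) := Set.range fun q : (G ⧸ N) × {x // x ∈ E} => cl q.1 q.2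
  have hBf : Finite B := Set.finite_range _ |>.to_subtype
  refine ⟨G ⧸ N, inferInstance, fun g => MulAction.toPerm g, ?_, ?_, ?_⟩
  · ext s
    simp
  · intro g _ h _
    have : (MulAction.toPerm (g * h) : Perm (G ⧸ N)) = MulAction.toPerm g * MulAction.toPerm h := by
      ext s
      simp [mul_smul]
    beta_reduce
    rw [this, hdist_self]
    exact hε
  · refine ⟨B, hBf, Set.univ, fun s => ⟨fun x => ⟨cl s.1 x, (s.1, x), rfl⟩, ?_⟩, ?_, ?_⟩
    · intro x y hxy
      have h1 : cl s.1 x = cl s.1 y := congrArg Subtype.val hxy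
      obtain ⟨n, hn, h2⟩ := Quotient.exact h1
      by_contra hne
      have hne' : x.1 ≠ y.1 := fun h => hne (Subtype.ext h)
      refine hN3 (s.1.out * n * (s.1.out)⁻¹) ⟨x.1, x.2, y.1, y.2, hne', ?_⟩
        (hN1.conj_mem n hn _)
      rw [map_mul, map_mul, Perm.mul_apply, Perm.mul_apply, h2, ← Perm.mul_apply, ← map_mul,
        mul_inv_cancel, map_one]
      rfl
    · rw [Set.ncard_univ]
      have h1 : (0 : ℝ) < Nat.card (G ⧸ N) := by
        exact_mod_cast Nat.card_pos
      nlinarith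
    · intro s s' g _ x x' hs hx
      apply Subtype.ext
      show Quotient.mk st (α (s'.1.out)⁻¹ x.1) = Quotient.mk st (α (s.1.out)⁻¹ x'.1)
      apply Quotient.sound
      have h1 : ((g * s.1.out : G) : G ⧸ N) = ((s'.1.out : G) : G ⧸ N) := by
        calc ((g * s.1.out : G) : G ⧸ N) = g • ((s.1.out : G) : G ⧸ N) := rfl
          _ = g • s.1 := by rw [QuotientGroup.out_eq']
          _ = s'.1 := hs
          _ = ((s'.1.out : G) : G ⧸ N) := (QuotientGroup.out_eq' _).symm
      rw [QuotientGroup.eq] at h1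
      refine ⟨(g * s.1.out)⁻¹ * s'.1.out, h1, ?_⟩
      rw [← hx, ← Perm.mul_apply, ← map_mul, ← Perm.mul_apply, ← map_mul]
      congr 2
      group

/-- restrictions of sofic actions are sofic -/
theorem IsSofic.comp {G H X : Type} [Group G] [Group H] {α : H →* Perm X} (hα : IsSofic α)
    (f : G →* H) : IsSofic (α.comp f) := by
  classical
  intro F E ε hε
  obtain ⟨A, hA, φ, h1, h2, B, hB, S, π, hS, hπ⟩ := hα (F.image f) E ε hε
  refine ⟨A, hA, fun g => φ (f g), ?_, ?_, B, hB, S, π, hS, ?_⟩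
  · show φ (f 1) = 1
    rw [map_one]
    exact h1
  · intro g hg h hh
    show hdist (φ (f (g * h))) (φ (f g) * φ (f h)) < ε
    rw [map_mul]
    exact h2 _ (Finset.mem_image_of_mem f hg) _ (Finset.mem_image_of_mem f hh)
  · intro s s' g hg x x' hs hx
    refine hπ s s' (f g) (Finset.mem_image_of_mem f hg) x x' hs ?_
    rw [← map_inv]
    exact hx

section pair

variable {G : Type} [Group G] (K : Subgroup G)

/-- the diagonal copy of `K` -/
def dg : Subgroup (G × G) := K.map ((MonoidHom.id G).prod (MonoidHom.id G))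

/-- the action of `G × G` on `(G × G) / ΔK` -/
def act : G × G →* Perm ((G × G) ⧸ dg K) := MulAction.toPermHom (G × G) _

theorem mem_dg (p : G × G) : p ∈ dg K ↔ p.1 = p.2 ∧ p.1 ∈ K := by
  constructor
  · rintro ⟨k, hk, rfl⟩
    exact ⟨rfl, hk⟩
  · rintro ⟨h, hk⟩
    exact ⟨p.1, hk, Prod.ext rfl h⟩

theorem act_apply (p q : G × G) : act K p (q : (G × G) ⧸ dg K) = ((p * q : G × G) : _ ⧸ dg K) :=
  rfl

theorem act_base (p : G × G) : act K p ((1 : G × G) : (G × G) ⧸ dg K) =
    ((1 : G × G) : (G × G) ⧸ dg K) ↔ p ∈ dg K := by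
  rw [act_apply, mul_one, eq_comm, QuotientGroup.eq]
  simp

theorem act_fix (p q : G × G) (h : act K p (q : (G × G) ⧸ dg K) = (q : (G × G) ⧸ dg K)) :
    q⁻¹ * p * q ∈ dg K := by
  rw [act_apply, eq_comm, QuotientGroup.eq] at h
  rw [mul_assoc]
  exact h

theorem free_left (g : G) (x : (G × G) ⧸ dg K) (h : act K (g, 1) x = x) : g = 1 := by
  induction x using QuotientGroup.induction_on with
  | H q =>
    have h1 := (mem_dg K _).1 (act_fix K _ _ h)
    have h2 : q.1⁻¹ * g * q.1 = q.2⁻¹ * 1 * q.2 := h1.1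
    rw [mul_one, inv_mul_cancel, mul_assoc, inv_mul_eq_one] at h2
    simpa using h2

theorem free_right (g : G) (x : (G × G) ⧸ dg K) (h : act K (1, g) x = x) : g = 1 := by
  induction x using QuotientGroup.induction_on with
  | H q =>
    have h1 := (mem_dg K _).1 (act_fix K _ _ h)
    have h2 : q.1⁻¹ * 1 * q.1 = q.2⁻¹ * g * q.2 := h1.1
    rw [mul_one, inv_mul_cancel, mul_assoc, eq_comm, inv_mul_eq_one] at h2
    simpa using h2

end pair

end Pool.Agent.N540.SA
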