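import Pool.Agent.N540.SA.Main
import Pool.Agent.N540.SA.Free

/-!
# Commuting sofic actions whose combined action is not sofic
-/

set_option autoImplicit false

namespace Pool.Agent.N540.SA

open Equiv
open Pool.Agent.W661.RC (HasT)

/-- A residually finite Kazhdan group with a Kazhdan subgroup which is properly contained in a
conjugate, such that the elements `g` with `K ≤ g K g⁻¹` generate the group. -/
def S_PAIR : Prop :=
  ∃ (G : Type) (_ : Group G), Countable G ∧ RF G ∧ ∃ K : Subgroup G, HasT G ∧ HasT K ∧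
    Subgroup.closure {g : G | ∀ k ∈ K, g⁻¹ * k * g ∈ K} = ⊤ ∧
    ∃ g : G, (∀ k ∈ K, g⁻¹ * k * g ∈ K) ∧ ∃ k ∈ K, g * k * g⁻¹ ∉ K

/-- the action of `G × G` on `(G × G) / ΔK` is not sofic -/
theorem not_sofic_act {G : Type} [Group G] (K : Subgroup G) (hG : HasT G) (hK : HasT K)
    (hgen : Subgroup.closure {g : G | ∀ k ∈ K, g⁻¹ * k * g ∈ K} = ⊤)
    (hg : ∃ g : G, (∀ k ∈ K, g⁻¹ * k * g ∈ K) ∧ ∃ k ∈ K, g * k * g⁻¹ ∉ K) :
    ¬ IsSofic (act K) := by
  intro h
  obtain ⟨g, hg1, k, hk1, hk2⟩ := hg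
  refine not_sofic_action ((act K).comp ((MonoidHom.id G).prod (MonoidHom.id G))) K hG hK hgen g
    hg1 k hk1 hk2 ((1 : G × G) : (G × G) ⧸ dg K) ?_ (h.comp _)
  intro a
  rw [MonoidHom.comp_apply, act_base, mem_dg]
  constructor
  · exact fun h => h.2
  · exact fun h => ⟨rfl, h⟩

theorem final (hP : S_PAIR) : ∃ (X G : Type) (_ : Countable X) (_ : Group G) (_ : Countable G)
    (α β : G →* Perm X) (hc : ∀ g h, Commute (α g) (β h)),
    (∀ g : G, g ≠ 1 → ∃ (Q : Type) (_ : Group Q) (_ : Finite Q) (f : G →* Q), f g ≠ 1) ∧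
    (∀ g x, α g x = x → g = 1) ∧ (∀ g x, β g x = x → g = 1) ∧
    IsSofic α ∧ IsSofic β ∧ ¬ IsSofic (MonoidHom.noncommCoprod α β hc) := by
  obtain ⟨G, _, hcG, hRF, K, hG, hK, hgen, hg⟩ := hP
  set α : G →* Perm ((G × G) ⧸ dg K) := (act K).comp (MonoidHom.inl G G) with hα
  set β : G →* Perm ((G × G) ⧸ dg K) := (act K).comp (MonoidHom.inr G G) with hβ
  have hc : ∀ g h, Commute (α g) (β h) := by
    intro g h
    show act K (g, 1) * act K (1, h) = act K (1, h) * act K (g, 1)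
    rw [← map_mul, ← map_mul]
    simp
  have hfa : ∀ g x, α g x = x → g = 1 := fun g x h => free_left K g x h
  have hfb : ∀ g x, β g x = x → g = 1 := fun g x h => free_right K g x h
  refine ⟨(G × G) ⧸ dg K, G, Quotient.countable, inferInstance, hcG, α, β, hc, hRF, hfa, hfb,
    sofic_of_free hRF α hfa, sofic_of_free hRF β hfb, ?_⟩
  have : MonoidHom.noncommCoprod α β hc = act K := by
    ext p x
    rw [MonoidHom.noncommCoprod_apply]
    show (act K (p.1, 1) * act K (1, p.2)) x = act K p x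
    rw [← map_mul]
    simp
  rw [this]
  exact not_sofic_act K hG hK hgen hg

end Pool.Agent.N540.SA
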